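import Mathlib
import Pool.Agent.H.MP_44891f_nt.B

set_option autoImplicit false

namespace Pool.Agent.Results.MP_44891f_nt.Q1

open Matrix Polynomial Pool.Agent.H4489

/-- the matrix `H_Ω^v(m, n)` for `Ω = ⟨a11, a21 | a12, a22, a32⟩` and `v = (a13, a23, a33)` -/
def H (a11 a21 a12 a22 a32 a13 a23 a33 m n : ℤ) : Matrix (Fin 3) (Fin 3) ℤ :=
  !![a11, a12, a11 * m + a12 * n + a13;
     a21, a22, a21 * m + a22 * n + a23;
     0, a32, a32 * n + a33]

/-- determinant one, characteristic polynomial irreducible over `ℚ`, with one real root and a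
pair of non-real complex conjugate roots -/
def IsNRS (A : Matrix (Fin 3) (Fin 3) ℤ) : Prop :=
  A.det = 1 ∧ Irreducible (A.charpoly.map (Int.castRingHom ℚ)) ∧
    ∃ (ρ : ℝ) (z : ℂ), z.im ≠ 0 ∧
      (A.charpoly.map (Int.castRingHom ℂ)).roots = {(ρ : ℂ), z, (starRingEnd ℂ) z}

/-- Hessenberg-shaped elements of `SL(3, ℤ)` -/
def HessShaped (M : Matrix (Fin 3) (Fin 3) ℤ) : Prop :=
  M.det = 1 ∧ M 2 0 = 0 ∧ M 1 0 * M 2 1 ≠ 0

/-- Hessenberg complexity -/
def complexity (M : Matrix (Fin 3) (Fin 3) ℤ) : ℤ := |M 1 0 ^ 2 * M 2 1|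

/-- Hessenberg-shaped, of least complexity among its Hessenberg-shaped `GL(3, ℤ)`-conjugates -/
def Reduced (M : Matrix (Fin 3) (Fin 3) ℤ) : Prop :=
  HessShaped M ∧ ∀ (M' : Matrix (Fin 3) (Fin 3) ℤ) (P : GL (Fin 3) ℤ), HessShaped M' →
    M' = (P : Matrix (Fin 3) (Fin 3) ℤ) * M * ((P⁻¹ : GL (Fin 3) ℤ) : Matrix (Fin 3) (Fin 3) ℤ) →
      complexity M ≤ complexity M'

def ta (M : M3) : ℤ := M 0 0 + M 1 1 + M 2 2

def tb (M : M3) : ℤ :=
  M 0 0 * M 1 1 - M 0 1 * M 1 0 + (M 0 0 * M 2 2 - M 0 2 * M 2 0) + (M 1 1 * M 2 2 - M 1 2 * M 2 1)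

def LA (M : M3) : V3 →ₗ[ℤ] V3 := M.mulVecLin

def LB (M : M3) : V3 →ₗ[ℤ] V3 := LA M ∘ₗ LA M - ta M • LA M + tb M • LinearMap.id

lemma ch (M : M3) (x : V3) :
    M *ᵥ (M *ᵥ (M *ᵥ x)) - ta M • (M *ᵥ (M *ᵥ x)) + tb M • (M *ᵥ x) = M.det • x := by
  ext i
  fin_cases i <;>
    simp only [mulVec, dotProduct, Fin.sum_univ_three, det_fin_three, ta, tb, Pi.add_apply,
      Pi.sub_apply, Pi.smul_apply, smul_eq_mul, Fin.zero_eta, Fin.mk_one, Fin.reduceFinMk] <;>
    ring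

lemma good (M : M3) (h : M.det = 1) : Good (LA M) (LB M) (ta M) (tb M) := by
  refine ⟨fun x => ?_, fun x => ?_, fun x => ?_⟩
  · have := ch M x
    rw [h, one_smul] at this
    simp only [LB, LinearMap.add_apply, LinearMap.sub_apply, LinearMap.smul_apply,
      LinearMap.comp_apply, LinearMap.id_apply, map_add, map_sub, map_smul]
    simpa only [LA, mulVecLin_apply] using this
  · have := ch M x
    rw [h, one_smul] at this
    simp only [LB, LinearMap.add_apply, LinearMap.sub_apply, LinearMap.smul_apply,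
      LinearMap.comp_apply, LinearMap.id_apply]
    simpa only [LA, mulVecLin_apply] using this
  · simp only [LB, LinearMap.add_apply, LinearMap.sub_apply, LinearMap.smul_apply,
      LinearMap.comp_apply, LinearMap.id_apply]
    abel

lemma G_eq (M : M3) (x : V3) : G (LA M) (LB M) x = d3 x (M *ᵥ x) (M *ᵥ (M *ᵥ x)) := by
  simp only [G, d3, LB, LA, LinearMap.add_apply, LinearMap.sub_apply, LinearMap.smul_apply,
    LinearMap.comp_apply, LinearMap.id_apply, mulVecLin_apply, Pi.add_apply, Pi.sub_apply,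
    Pi.smul_apply, smul_eq_mul]
  ring

lemma d3_mul (P : M3) (x y z : V3) : d3 (P *ᵥ x) (P *ᵥ y) (P *ᵥ z) = P.det * d3 x y z := by
  simp only [d3, mulVec, dotProduct, Fin.sum_univ_three, det_fin_three]
  ring

lemma d3_hess (M : M3) (h : M 2 0 = 0) :
    d3 ![1, 0, 0] (M *ᵥ ![1, 0, 0]) (M *ᵥ (M *ᵥ ![1, 0, 0])) = M 1 0 ^ 2 * M 2 1 := by
  simp [d3, mulVec, dotProduct, Fin.sum_univ_three, h]
  ring

lemma root_eq (M : M3) (h : M.det = 1) (z : ℂ)
    (hz : (M.charpoly.map (Int.castRingHom ℂ)).eval z = 0) :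
    z ^ 3 - (ta M : ℂ) * z ^ 2 + (tb M : ℂ) * z - 1 = 0 := by
  rw [← charpoly_map, eval_charpoly, det_fin_three] at hz
  rw [det_fin_three] at h
  have h' := congrArg (Int.cast : ℤ → ℂ) h
  push_cast at h'
  simp [Matrix.scalar_apply, diagonal] at hz
  unfold ta tb
  push_cast
  linear_combination hz + h'

lemma bound (M : M3) (hN : IsNRS M) (hH : HessShaped M) (hR : ¬ Reduced M) :
    |ta M| ≤ 3 * (10000 * (complexity M ^ 3) ^ 2) ^ 2 ∧
      |tb M| ≤ 3 * (10000 * (complexity M ^ 3) ^ 2) ^ 2 := by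
  obtain ⟨hdet, -, ρ, z, hzi, hroots⟩ := hN
  have hz : (M.charpoly.map (Int.castRingHom ℂ)).eval z = 0 := by
    have : z ∈ (M.charpoly.map (Int.castRingHom ℂ)).roots := by rw [hroots]; simp
    exact (mem_roots'.mp this).2
  have hp := root_eq M hdet z hz
  have hre := congrArg Complex.re hp
  have him := congrArg Complex.im hp
  simp [pow_succ] at hre him
  have hb : (tb M : ℝ) = 2 * (ta M - 2 * z.re) * z.re + z.re ^ 2 + z.im ^ 2 := by
    apply mul_left_cancel₀ hzi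
    linear_combination him
  have h1 : (ta M - 2 * z.re) * (z.re ^ 2 + z.im ^ 2) = 1 := by
    rw [hb] at hre
    linear_combination hre
  unfold Reduced at hR
  push Not at hR
  obtain ⟨M', P, hH', hM', hlt⟩ := hR hH
  have he : G (LA M) (LB M) ![1, 0, 0] = M 1 0 ^ 2 * M 2 1 := by rw [G_eq, d3_hess M hH.2.1]
  set Q : M3 := ((P⁻¹ : GL (Fin 3) ℤ) : Matrix (Fin 3) (Fin 3) ℤ) with hQ
  have hQP : Q * (P : M3) = 1 := by rw [hQ]; exact Units.inv_mul P
  have hMQ : ∀ y : V3, M *ᵥ (Q *ᵥ y) = Q *ᵥ (M' *ᵥ y) := by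
    intro y
    rw [hM', mulVec_mulVec, mulVec_mulVec, ← mul_assoc, ← mul_assoc, hQP, one_mul]
  have hQd : |Q.det| = 1 := by
    have : Q.det * (P : M3).det = 1 := by rw [← det_mul, hQP, det_one]
    rcases Int.eq_one_or_neg_one_of_mul_eq_one this with h | h <;> rw [h] <;> rfl
  have hx : |G (LA M) (LB M) (Q *ᵥ ![1, 0, 0])| = complexity M' := by
    rw [G_eq, hMQ, hMQ, d3_mul, d3_hess M' hH'.2.1, abs_mul, hQd, one_mul, complexity]
  have ne : ∀ N : M3, HessShaped N → N 1 0 ^ 2 * N 2 1 ≠ 0 := by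
    intro N hN
    have := mul_ne_zero_iff.mp hN.2.2
    exact mul_ne_zero (pow_ne_zero 2 this.1) this.2
  have := dichotomy (good M hdet) ![1, 0, 0] rfl (by rw [he]; exact ne M hH)
    (ta M - 2 * z.re) z.re (z.im ^ 2) h1 (by positivity) (by ring) hb (Q *ᵥ ![1, 0, 0])
    (by
      intro h0
      rw [h0, abs_zero, complexity] at hx
      exact ne M' hH' (abs_eq_zero.mp hx.symm))
    (by rw [hx, he]; exact hlt)
  rwa [he] at this

theorem result (a11 a21 a12 a22 a32 a13 a23 a33 : ℤ) (h21 : 1 ≤ a21) (h32 : 1 ≤ a32)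
    (hdet : (!![a11, a12, a13; a21, a22, a23; 0, a32, a33] : Matrix (Fin 3) (Fin 3) ℤ).det = 1) :
    {M : Matrix (Fin 3) (Fin 3) ℤ |
      (∃ m n : ℤ, M = H a11 a21 a12 a22 a32 a13 a23 a33 m n) ∧ IsNRS M ∧ ¬ Reduced M}.Finite := by
  set L : ℤ := 3 * (10000 * (|a21 ^ 2 * a32| ^ 3) ^ 2) ^ 2 with hL
  let f : ℤ × ℤ → M3 := fun p => H a11 a21 a12 a22 a32 a13 a23 a33 p.1 p.2
  let g : ℤ × ℤ → ℤ × ℤ := fun p => (ta (f p), tb (f p))
  have hg : Function.Injective g := by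
    rintro ⟨m, n⟩ ⟨m', n'⟩ h
    have h1 : ta (f (m, n)) = ta (f (m', n')) := congrArg Prod.fst h
    have h2 : tb (f (m, n)) = tb (f (m', n')) := congrArg Prod.snd h
    simp [f, ta, tb, H] at h1 h2
    have hn : n = n' := by
      rcases h1 with h1 | h1
      · exact h1
      · omega
    subst hn
    have hm : m = m' := by
      have hne : a21 * a32 ≠ 0 := by positivity
      apply mul_left_cancel₀ hne
      linear_combination -h2
    rw [hm]
  have hfin : (g ⁻¹' (Set.Icc (-L) L ×ˢ Set.Icc (-L) L)).Finite :=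
    ((Set.finite_Icc _ _).prod (Set.finite_Icc _ _)).preimage hg.injOn
  refine (hfin.image f).subset ?_
  rintro M ⟨⟨m, n, rfl⟩, hN, hR⟩
  have hH : HessShaped (H a11 a21 a12 a22 a32 a13 a23 a33 m n) := by
    refine ⟨hN.1, by simp [H], ?_⟩
    simp [H]
    omega
  have hc : complexity (H a11 a21 a12 a22 a32 a13 a23 a33 m n) = |a21 ^ 2 * a32| := by
    simp [H, complexity]
  have := bound _ hN hH hR
  rw [hc] at this
  exact ⟨(m, n), ⟨abs_le.mp this.1, abs_le.mp this.2⟩, rfl⟩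

end Pool.Agent.Results.MP_44891f_nt.Q1
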